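import Pool.Agent.TH838.SK.Main

/-!
Modulo a prime: for all nonzero initial values a positive proportion of the recurrences has no zero
(helper329).
-/

set_option autoImplicit false

namespace Pool.Agent.Q329.SK

open Finset Pool.Agent.H884R2.Sko Pool.Agent.TH838.SK

/-- no zero term and period `p - 1` -/
def GoodA {p d : ℕ} (a c : Fin d → ZMod p) : Prop :=
  (∀ n, seq c a n ≠ 0) ∧ ∀ n, seq c a (n + (p - 1)) = seq c a n

section

variable {K : Type} [Field K]

/-- scaled coefficients -/
def sc {d : ℕ} (s : K) (c : Fin d → K) : Fin d → K := fun i => s ^ (d - (i : ℕ)) * c i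

theorem seq_sc {d : ℕ} (s : K) (hs : s ≠ 0) (c a : Fin d → K) (n : ℕ) :
    seq (sc s c) a n = s ^ n * seq c (fun i => a i * s⁻¹ ^ (i : ℕ)) n := by
  symm
  apply eq_seq (sc s c) a (fun n => s ^ n * seq c (fun i => a i * s⁻¹ ^ (i : ℕ)) n)
  · intro n
    rw [seq_sol, Finset.mul_sum]
    refine Finset.sum_congr rfl fun i _ => ?_
    have h1 : s ^ (n + d) = s ^ (d - (i : ℕ)) * s ^ (n + i) := by
      rw [← pow_add]
      congr 1
      have := i.2
      omega
    rw [h1]
    unfold sc
    ring
  · intro i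
    rw [seq_init, mul_comm (a i), ← mul_assoc, ← mul_pow, mul_inv_cancel₀ hs, one_pow, one_mul]

theorem sc_inj {d : ℕ} (s : K) (hs : s ≠ 0) : Function.Injective (sc s : (Fin d → K) → _) := by
  intro c c' h
  funext i
  have h1 := congrFun h i
  unfold sc at h1
  exact mul_left_cancel₀ (pow_ne_zero _ hs) h1

open Classical in
/-- for each index few scalings give a zero -/
theorem card_root [Fintype K] {d : ℕ} (hd : 1 ≤ d) (S : Finset K) (hS : S.card = d) (z : K)
    (hz : z ∈ S) (hz0 : z ≠ 0) (a : Fin d → K) (ha : ∀ i, a i ≠ 0) (n : ℕ) :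
    ((univ : Finset K).filter fun t => seq (coef d S) (fun i => a i * t ^ (i : ℕ)) n = 0).card ≤
      d - 1 := by
  obtain ⟨v, hv⟩ := ev_ne_zero d S hS z hz hz0 n
  set l := ev (coef d S) n with hl
  set P : Polynomial K := ∑ i : Fin d, Polynomial.C (a i * l (Pi.single i 1)) *
    Polynomial.X ^ (i : ℕ) with hP
  have hlin : ∀ w : Fin d → K, l w = ∑ i, w i * l (Pi.single i 1) := by
    intro w
    have h1 : w = ∑ i, w i • (Pi.single i (1 : K) : Fin d → K) := by
      funext j
      simp [Finset.sum_apply, Pi.single_apply]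
    conv_lhs => rw [h1]
    rw [map_sum]
    refine Finset.sum_congr rfl fun i _ => ?_
    rw [map_smul, smul_eq_mul]
  have heval : ∀ t, P.eval t = seq (coef d S) (fun i => a i * t ^ (i : ℕ)) n := by
    intro t
    change P.eval t = l (fun i => a i * t ^ (i : ℕ))
    rw [hlin, hP, Polynomial.eval_finsetSum]
    refine Finset.sum_congr rfl fun i _ => ?_
    simp only [Polynomial.eval_mul, Polynomial.eval_C, Polynomial.eval_pow, Polynomial.eval_X]
    ring
  have hcoef : ∀ i : Fin d, P.coeff i = a i * l (Pi.single i 1) := by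
    intro i
    rw [hP, Polynomial.finsetSum_coeff, Finset.sum_eq_single i]
    · rw [Polynomial.coeff_C_mul, Polynomial.coeff_X_pow, if_pos rfl, mul_one]
    · intro j _ hj
      rw [Polynomial.coeff_C_mul, Polynomial.coeff_X_pow, if_neg, mul_zero]
      intro h
      exact hj (Fin.ext h.symm)
    · intro h
      exact absurd (mem_univ _) h
  have hP0 : P ≠ 0 := by
    intro h
    apply hv
    rw [hlin]
    refine Finset.sum_eq_zero fun i _ => ?_
    have h1 := hcoef i
    rw [h, Polynomial.coeff_zero] at h1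
    rcases mul_eq_zero.1 h1.symm with h2 | h2
    · exact absurd h2 (ha i)
    · rw [h2, mul_zero]
  have hdeg : P.natDegree ≤ d - 1 := by
    rw [hP]
    apply Polynomial.natDegree_sum_le_of_forall_le
    intro i _
    refine (Polynomial.natDegree_C_mul_X_pow_le _ _).trans ?_
    have := i.2
    omega
  have h1 : (univ : Finset K).filter (fun t => seq (coef d S)
      (fun i => a i * t ^ (i : ℕ)) n = 0) ⊆ P.roots.toFinset := by
    intro t ht
    rw [Finset.mem_filter] at ht
    rw [Multiset.mem_toFinset, Polynomial.mem_roots hP0]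
    unfold Polynomial.IsRoot
    rw [heval]
    exact ht.2
  calc _ ≤ P.roots.toFinset.card := Finset.card_le_card h1
    _ ≤ Multiset.card P.roots := Multiset.toFinset_card_le _
    _ ≤ P.natDegree := Polynomial.card_roots' P
    _ ≤ d - 1 := hdeg

open Classical in
theorem card_badt [Fintype K] {d : ℕ} (hd : 1 ≤ d) (T : ℕ) (hT : 0 < T) (S : Finset K)
    (hS : S.card = d) (hST : ∀ z ∈ S, z ^ T = 1) (a : Fin d → K) (ha : ∀ i, a i ≠ 0) :
    ((univ : Finset K).filter fun t => ∃ n, seq (coef d S) (fun i => a i * t ^ (i : ℕ)) n =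
      0).card ≤ T * (d - 1) := by
  obtain ⟨z, hz⟩ : S.Nonempty := by
    rw [← Finset.card_pos, hS]
    omega
  have hz0 : z ≠ 0 := by
    rintro rfl
    have := hST 0 hz
    rw [zero_pow hT.ne'] at this
    exact zero_ne_one this
  have hsub : (univ : Finset K).filter (fun t => ∃ n, seq (coef d S)
      (fun i => a i * t ^ (i : ℕ)) n = 0) ⊆ (range T).biUnion (fun n =>
        (univ : Finset K).filter fun t => seq (coef d S) (fun i => a i * t ^ (i : ℕ)) n = 0) := by
    intro t ht
    rw [Finset.mem_filter] at ht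
    obtain ⟨_, n, hn⟩ := ht
    rw [Finset.mem_biUnion]
    refine ⟨n % T, Finset.mem_range.2 (Nat.mod_lt _ hT), ?_⟩
    rw [Finset.mem_filter]
    refine ⟨mem_univ _, ?_⟩
    rw [← seq_mod d T S hS hST]
    exact hn
  refine (Finset.card_le_card hsub).trans (Finset.card_biUnion_le.trans ?_)
  calc ∑ n ∈ range T, ((univ : Finset K).filter fun t => seq (coef d S)
        (fun i => a i * t ^ (i : ℕ)) n = 0).card ≤ ∑ _n ∈ range T, (d - 1) :=
        Finset.sum_le_sum fun n _ => card_root hd S hS z hz hz0 a ha n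
    _ = T * (d - 1) := by rw [Finset.sum_const, Finset.card_range, smul_eq_mul]

end

open Classical in
theorem card_goodA (p : ℕ) [Fact p.Prime] (d k T : ℕ) (hd : 1 ≤ d) (hk : k = 2 * d)
    (hT : k * T = p - 1) (hp' : 2 * k * d ≤ p) (a : Fin d → ZMod p) (ha : ∀ i, a i ≠ 0) :
    p ^ d ≤ 2 * ((2 * k) ^ d * d.factorial) *
      ((univ : Finset (Fin d → ZMod p)).filter (fun c => GoodA a c)).card := by
  have hprime : p.Prime := Fact.out
  have hk2 : 2 ≤ k := by omega
  have hp2 : 2 ≤ p := hprime.two_le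
  have hTpos : 0 < T := by
    rcases Nat.eq_zero_or_pos T with h | h
    · rw [h, mul_zero] at hT
      omega
    · exact h
  obtain ⟨Q, hQ1, hQ2⟩ := exists_powers p k T (by omega) hT
  set A : Finset (Finset (ZMod p)) := Q.powersetCard d with hA
  have hA1 : ∀ S ∈ A, S ⊆ Q ∧ S.card = d := fun S hS => Finset.mem_powersetCard.1 hS
  have hST : ∀ S ∈ A, ∀ z ∈ S, z ^ T = 1 := fun S hS z hz => hQ2 z ((hA1 S hS).1 hz)
  -- good scalings
  let G : Finset (ZMod p) → ZMod p → Prop := fun S t =>
    ∀ n, seq (coef d S) (fun i => a i * t ^ (i : ℕ)) n ≠ 0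
  have hmany : ∀ S ∈ A, p - 1 ≤ 2 *
      ((univ : Finset (ZMod p)).filter fun t => t ≠ 0 ∧ G S t).card := by
    intro S hS
    have h1 := card_badt hd T hTpos S (hA1 S hS).2 (hST S hS) a ha
    have h2 : p ≤ ((univ : Finset (ZMod p)).filter fun t => ∃ n, seq (coef d S)
        (fun i => a i * t ^ (i : ℕ)) n = 0).card +
          (((univ : Finset (ZMod p)).filter fun t => t ≠ 0 ∧ G S t).card + 1) := by
      have h3 : (univ : Finset (ZMod p)) ⊆ ((univ : Finset (ZMod p)).filter fun t =>
          ∃ n, seq (coef d S) (fun i => a i * t ^ (i : ℕ)) n = 0) ∪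
          (((univ : Finset (ZMod p)).filter fun t => t ≠ 0 ∧ G S t) ∪ {0}) := by
        intro t _
        simp only [Finset.mem_union, Finset.mem_filter, mem_univ, true_and, Finset.mem_singleton]
        by_cases h0 : t = 0
        · exact Or.inr (Or.inr h0)
        · by_cases h1 : ∃ n, seq (coef d S) (fun i => a i * t ^ (i : ℕ)) n = 0
          · exact Or.inl h1
          · exact Or.inr (Or.inl ⟨h0, fun n hn => h1 ⟨n, hn⟩⟩)
      have h4 := Finset.card_le_card h3
      rw [Finset.card_univ, ZMod.card] at h4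
      refine h4.trans ((Finset.card_union_le _ _).trans ?_)
      apply Nat.add_le_add_left
      refine (Finset.card_union_le _ _).trans ?_
      rw [Finset.card_singleton]
    have h5 : 2 * (T * (d - 1)) ≤ p - 1 := by
      rw [← hT, hk]
      calc 2 * (T * (d - 1)) ≤ 2 * (T * d) :=
            Nat.mul_le_mul_left _ (Nat.mul_le_mul_left _ (Nat.sub_le _ _))
        _ = 2 * d * T := by ring
    omega
  -- one scaling is good for many sets
  obtain ⟨t, ht0, ht⟩ : ∃ t : ZMod p, t ≠ 0 ∧ A.card ≤ 2 * (A.filter fun S => G S t).card := by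
    by_contra hcon
    push Not at hcon
    have h1 : ∑ S ∈ A, ((univ : Finset (ZMod p)).filter fun t => t ≠ 0 ∧ G S t).card =
        ∑ t ∈ (univ : Finset (ZMod p)).filter (fun t => t ≠ 0), (A.filter fun S => G S t).card := by
      have h2 : ∀ S ∈ A, ((univ : Finset (ZMod p)).filter fun t => t ≠ 0 ∧ G S t) =
          ((univ : Finset (ZMod p)).filter (fun t => t ≠ 0)).filter (fun t => G S t) := by
        intro S _
        rw [Finset.filter_filter]
      rw [Finset.sum_congr rfl fun S hS => by rw [h2 S hS]]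
      exact Finset.sum_card_bipartiteAbove_eq_sum_card_bipartiteBelow
        (s := A) (t := (univ : Finset (ZMod p)).filter (fun t => t ≠ 0)) (fun S t => G S t)
    have hU : ((univ : Finset (ZMod p)).filter (fun t => t ≠ 0)).card = p - 1 := by
      rw [Finset.filter_ne', Finset.card_erase_of_mem (mem_univ _), Finset.card_univ, ZMod.card]
    have h3 : A.card * (p - 1) ≤ 2 * ∑ S ∈ A,
        ((univ : Finset (ZMod p)).filter fun t => t ≠ 0 ∧ G S t).card := by
      rw [Finset.mul_sum, ← smul_eq_mul]
      exact Finset.card_nsmul_le_sum _ _ _ hmany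
    rw [h1, Finset.mul_sum] at h3
    have h4 : ∑ t ∈ (univ : Finset (ZMod p)).filter (fun t => t ≠ 0),
        2 * (A.filter fun S => G S t).card <
        ∑ _t ∈ (univ : Finset (ZMod p)).filter (fun t => t ≠ 0), A.card := by
      apply Finset.sum_lt_sum_of_nonempty
      · rw [← Finset.card_pos, hU]
        omega
      · intro t ht
        exact hcon t (Finset.mem_filter.1 ht).2
    rw [Finset.sum_const, hU, smul_eq_mul, mul_comm] at h4
    omega
  -- the recurrences
  have hinj : (A.filter fun S => G S t).card ≤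
      ((univ : Finset (Fin d → ZMod p)).filter (fun c => GoodA a c)).card := by
    apply Finset.card_le_card_of_injOn (fun S => sc t⁻¹ (coef d S))
    · intro S hS
      rw [Finset.mem_coe, Finset.mem_filter] at hS
      rw [Finset.mem_coe, Finset.mem_filter]
      have hti : t⁻¹ ≠ 0 := inv_ne_zero ht0
      have hseq : ∀ n, seq (sc t⁻¹ (coef d S)) a n =
          t⁻¹ ^ n * seq (coef d S) (fun i => a i * t ^ (i : ℕ)) n := by
        intro n
        rw [seq_sc t⁻¹ hti, inv_inv]
      refine ⟨mem_univ _, fun n => ?_, fun n => ?_⟩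
      · rw [hseq]
        exact mul_ne_zero (pow_ne_zero _ hti) (hS.2 n)
      · rw [hseq, hseq, seq_mod d T S (hA1 S hS.1).2 (hST S hS.1) _ (n + (p - 1)),
          seq_mod d T S (hA1 S hS.1).2 (hST S hS.1) _ n, ← hT, Nat.add_mul_mod_self_right, hT,
          pow_add, ZMod.pow_card_sub_one_eq_one hti, mul_one]
    · intro S hS S' hS' h
      rw [Finset.mem_coe, Finset.mem_filter] at hS hS'
      exact coef_inj (hA1 S hS.1).2 (hA1 S' hS'.1).2 (sc_inj t⁻¹ (inv_ne_zero ht0) h)
  have hchoose : p ^ d ≤ (2 * k) ^ d * d.factorial * A.card := by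
    rw [hA, Finset.card_powersetCard, hQ1]
    have h1 := Nat.pow_sub_le_descFactorial T d
    rw [Nat.descFactorial_eq_factorial_mul_choose] at h1
    have h2 : p ≤ 2 * k * (T + 1 - d) := by
      have h3 : p = k * T + 1 := by omega
      obtain ⟨d', hd'⟩ : ∃ d', d = d' + 1 := ⟨d - 1, by omega⟩
      rw [hd'] at hp' ⊢
      have h4 : d' + 1 ≤ T := by
        by_contra hcon
        push Not at hcon
        have : k * T ≤ k * (d' + 1 - 1) := Nat.mul_le_mul_left _ (by omega)
        have h5 : 2 * k * (d' + 1) = 2 * (k * d') + 2 * k := by ring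
        have h6 : k * (d' + 1 - 1) = k * d' := by rw [Nat.add_sub_cancel]
        omega
      obtain ⟨t, rfl⟩ : ∃ t, T = d' + 1 + t := ⟨T - (d' + 1), by omega⟩
      have h7 : d' + 1 + t + 1 - (d' + 1) = t + 1 := by omega
      rw [h7]
      have h8 : 2 * k * (d' + 1) = 2 * (k * d') + 2 * k := by ring
      have h9 : k * (d' + 1 + t) = k * d' + k + k * t := by ring
      have h10 : 2 * k * (t + 1) = 2 * (k * t) + 2 * k := by ring
      rw [h9] at h3
      rw [h8] at hp'
      rw [h10]
      omega
    calc p ^ d ≤ (2 * k * (T + 1 - d)) ^ d := Nat.pow_le_pow_left h2 _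
      _ = (2 * k) ^ d * (T + 1 - d) ^ d := by rw [mul_pow]
      _ ≤ (2 * k) ^ d * (d.factorial * T.choose d) := Nat.mul_le_mul_left _ h1
      _ = (2 * k) ^ d * d.factorial * T.choose d := by ring
  calc p ^ d ≤ (2 * k) ^ d * d.factorial * A.card := hchoose
    _ ≤ (2 * k) ^ d * d.factorial * (2 * (A.filter fun S => G S t).card) :=
        Nat.mul_le_mul_left _ ht
    _ = 2 * ((2 * k) ^ d * d.factorial) * (A.filter fun S => G S t).card := by ring
    _ ≤ _ := Nat.mul_le_mul_left _ hinj

end Pool.Agent.Q329.SK
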