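import Pool.Agent.TH838.SK.Uni

/-!
The sieve for sets of residues modulo the primes which do not divide a given number (helper329).
-/

set_option autoImplicit false

namespace Pool.Agent.Q329.SK

open Filter Pool.Agent.H684R3.Smo Pool.Agent.H884R2.Sko Pool.Agent.H692R2.USS

theorem card_pf (N : ℕ) (hN : 0 < N) : (N.primeFactors.card : ℝ) ≤ 2 * Real.log N := by
  have h1 : 2 ^ N.primeFactors.card ≤ ∏ p ∈ N.primeFactors, p :=
    Finset.pow_card_le_prod _ _ _ fun p hp => (Nat.prime_of_mem_primeFactors hp).two_le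
  have h2 : ∏ p ∈ N.primeFactors, p ≤ N := Nat.le_of_dvd hN (Nat.prod_primeFactors_dvd N)
  have h3 : (2 : ℝ) ^ N.primeFactors.card ≤ N := by exact_mod_cast h1.trans h2
  have h4 := Real.log_le_log (by positivity) h3
  rw [Real.log_pow] at h4
  have h5 : (1 : ℝ) / 2 ≤ Real.log 2 := by linarith [Real.log_two_gt_d9]
  have h6 : (0 : ℝ) ≤ (N.primeFactors.card : ℝ) := by positivity
  nlinarith

/-- conditions on `t = log H` which hold eventually -/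
theorem ev2 (y₀ B : ℕ) (θ θ' A : ℝ) (hθ : 0 < θ) (hθ' : θ' < θ) (hA : 0 < A) (hAθ : 1 < A * θ) :
    ∀ᶠ t : ℝ in atTop, 4 ≤ t ^ A ∧ (y₀ : ℝ) + 2 ≤ t ^ A / 8 ∧
      4 * (B * t) ≤ (t ^ A / 8) ^ θ ∧
      2 ≤ (t ^ A / 8) ^ (θ - θ') := by
  have h1 : Tendsto (fun t : ℝ => t ^ A) atTop atTop := tendsto_rpow_atTop hA
  have h2 : Tendsto (fun t : ℝ => t ^ A / 8) atTop atTop := h1.atTop_div_const (by norm_num)
  have h3 : ∀ᶠ t : ℝ in atTop, 4 * (B * t) ≤ (t ^ A / 8) ^ θ := by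
    have h4 : ∀ᶠ t : ℝ in atTop, 4 * B * (8 : ℝ) ^ θ ≤ t ^ (A * θ - 1) :=
      (tendsto_rpow_atTop (by linarith)).eventually_ge_atTop _
    filter_upwards [h4, eventually_gt_atTop (0 : ℝ)] with t ht ht0
    rw [Real.div_rpow (by positivity) (by norm_num), le_div_iff₀ (by positivity),
      ← Real.rpow_mul ht0.le]
    have h5 : t ^ (A * θ) = t ^ (A * θ - 1) * t := by
      rw [Real.rpow_sub_one ht0.ne']
      field_simp
    rw [h5]
    nlinarith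
  filter_upwards [h1.eventually_ge_atTop 4, h2.eventually_ge_atTop ((y₀ : ℝ) + 2), h3,
    ((tendsto_rpow_atTop (by linarith : (0 : ℝ) < θ - θ')).comp h2).eventually_ge_atTop 2]
    with t a1 a2 a3 a4
  exact ⟨a1, a2, a3, a4⟩

/-- The asymptotic form of the counting bound, uniform in the sets `G p` and in the excluded primes. -/
theorem t5v (h4 : T4) (B : ℕ) (ι : Type) [Fintype ι] [DecidableEq ι] (P : ℕ → Prop) (κ θ₀ A : ℝ)
    (hκ : 0 < κ) (hθ₀ : 0 < θ₀) (hA : 0 < A) (hAθ₀ : 1 < A * θ₀) (hPp : ∀ p, P p → p.Prime)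
    (hN : ∃ y₀ : ℕ, ∀ y : ℕ, y₀ ≤ y → (y : ℝ) ^ θ₀ ≤ (Nat.card {p : ℕ // P p ∧ p ≤ y} : ℝ)) :
    ∃ δ : ℝ, 0 < δ ∧ ∃ H₀ : ℕ, ∀ H : ℕ, H₀ ≤ H → ∀ N : ℕ, 0 < N → N ≤ H ^ B →
      ∀ G : ∀ p : ℕ, Set (ι → ZMod p),
      (∀ p, P p → ¬ p ∣ N → κ * (p : ℝ) ^ (Fintype.card ι) ≤ (Nat.card (G p) : ℝ)) →
      ∀ b : ι → ℤ,
      (Nat.card {v : ι → ℤ // v ∈ bx b H ∧ ∀ p, P p → ¬ p ∣ N → (p : ℝ) ≤ Real.log H ^ A →
        (fun i => (v i : ZMod p)) ∉ G p} : ℝ) ≤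
        (2 * (H : ℝ) + 1) ^ (Fintype.card ι) * (H : ℝ) ^ (-δ) := by
  obtain ⟨z₀, hz₀⟩ := hN
  -- a slightly smaller exponent
  set θ : ℝ := (θ₀ + 1 / A) / 2 with hθdef
  have hinv : 1 / A < θ₀ := by
    rw [div_lt_iff₀ hA]
    linarith
  have hθlt : θ < θ₀ := by rw [hθdef]; linarith
  have hA1 : 0 < 1 / A := by positivity
  have hθ : 0 < θ := by rw [hθdef]; linarith
  have hAθ : 1 < A * θ := by
    have h1 : A * θ = (A * θ₀ + 1) / 2 := by rw [hθdef]; field_simp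
    rw [h1]
    linarith
  set ε : ℝ := (A * θ - 1) / 2 with hε
  have hε0 : 0 < ε := by rw [hε]; linarith
  set η : ℝ := 1 / (16 * A) with hη
  have hη0 : 0 < η := by positivity
  set δ : ℝ := min (ε * η / 8) (1 / 2) with hδ
  have hδ0 : 0 < δ := lt_min (by positivity) (by norm_num)
  have hlogH : Tendsto (fun H : ℕ => Real.log (H : ℝ)) atTop atTop :=
    Real.tendsto_log_atTop.comp tendsto_natCast_atTop_atTop
  have hev := hlogH.eventually ((t5_ev 0 κ θ A ε η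
    ((Fintype.card ι : ℝ) * 2 ^ (Fintype.card ι) * 2) hA hε0 hη0).and
      (ev2 z₀ B θ₀ θ A hθ₀ hθlt hA hAθ₀))
  obtain ⟨H₀, hH₀⟩ := eventually_atTop.1 hev
  refine ⟨δ, hδ0, H₀, fun H hH N hN0 hNH G hP b => ?_⟩
  obtain ⟨⟨c1, _, c3, c4, c5, c6, c7, c8, c9⟩, e1, e2, e3, e4⟩ := hH₀ H hH
  have ht0 : 0 < Real.log (H : ℝ) := lt_of_lt_of_le (Real.exp_pos 1) c1
  have hHpos : (0 : ℝ) < H := by
    rcases Nat.eq_zero_or_pos H with h | h
    · subst h; simp at ht0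
    · exact_mod_cast h
  set t := Real.log (H : ℝ) with ht
  set y₀ : ℕ := ⌊t ^ A / 4⌋₊ with hy₀
  have hy₀1 : (y₀ : ℝ) ≤ t ^ A / 4 := Nat.floor_le (by positivity)
  have hy₀2 : t ^ A / 4 < y₀ + 1 := Nat.lt_floor_add_one _
  have c2 : 2 * ((y₀ : ℝ) + 1) ≤ t ^ A := by linarith
  have hcount : ∀ y : ℕ, y₀ ≤ y → (y : ℝ) ^ θ ≤
      (Nat.card {p : ℕ // (P p ∧ ¬ p ∣ N) ∧ p ≤ y} : ℝ) := by
    intro y hy
    have hyR : t ^ A / 8 ≤ y := by
      have h1 : (y₀ : ℝ) ≤ y := by exact_mod_cast hy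
      have h2 : (0 : ℝ) ≤ z₀ := by positivity
      linarith
    have hy0 : (0 : ℝ) < y := by
      have h2 : (0 : ℝ) ≤ z₀ := by positivity
      linarith
    have hyz : z₀ ≤ y := by
      have : (z₀ : ℝ) ≤ y := by linarith
      exact_mod_cast this
    have h1 := hz₀ y hyz
    have hfin1 : Finite {p : ℕ // (P p ∧ ¬ p ∣ N) ∧ p ≤ y} :=
      (Set.Finite.subset (Set.finite_le_nat y) (fun p hp => hp.2) :
        ({p : ℕ | (P p ∧ ¬ p ∣ N) ∧ p ≤ y}).Finite).to_subtype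
    have h2 : Nat.card {p : ℕ // P p ∧ p ≤ y} ≤
        Nat.card {p : ℕ // (P p ∧ ¬ p ∣ N) ∧ p ≤ y} + N.primeFactors.card := by
      have e : Nat.card ({p : ℕ // (P p ∧ ¬ p ∣ N) ∧ p ≤ y} ⊕ N.primeFactors) =
          Nat.card {p : ℕ // (P p ∧ ¬ p ∣ N) ∧ p ≤ y} + N.primeFactors.card := by
        rw [Nat.card_sum, Nat.card_eq_fintype_card (α := N.primeFactors), Fintype.card_coe]
      rw [← e]
      classical
      apply Nat.card_le_card_of_injective (fun p : {p : ℕ // P p ∧ p ≤ y} =>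
        if h : p.1 ∣ N then Sum.inr (⟨p.1, Nat.mem_primeFactors.2 ⟨hPp _ p.2.1, h, hN0.ne'⟩⟩ :
            N.primeFactors) else
          Sum.inl (⟨p.1, ⟨p.2.1, h⟩, p.2.2⟩ : {p : ℕ // (P p ∧ ¬ p ∣ N) ∧ p ≤ y}))
      intro x x' h
      apply Subtype.ext
      simp only at h
      split_ifs at h with h4 h5 h5
      · simpa using h
      · simpa using h
    have h3 : (N.primeFactors.card : ℝ) ≤ 2 * (B * t) := by
      refine (card_pf N hN0).trans ?_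
      have : Real.log N ≤ B * t := by
        rw [ht, ← Real.log_pow]
        exact Real.log_le_log (by exact_mod_cast hN0) (by exact_mod_cast hNH)
      linarith
    have h4 : 4 * (B * t) ≤ (y : ℝ) ^ θ₀ :=
      e3.trans (Real.rpow_le_rpow (by positivity) hyR hθ₀.le)
    have h5 : 2 * (y : ℝ) ^ θ ≤ (y : ℝ) ^ θ₀ := by
      have h6 : (y : ℝ) ^ θ₀ = (y : ℝ) ^ (θ₀ - θ) * (y : ℝ) ^ θ := by
        rw [← Real.rpow_add hy0]
        congr 1
        ring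
      have h7 : 2 ≤ (y : ℝ) ^ (θ₀ - θ) :=
        e4.trans (Real.rpow_le_rpow (by positivity) hyR (by linarith))
      rw [h6]
      exact mul_le_mul_of_nonneg_right h7 (by positivity)
    have h8 : (Nat.card {p : ℕ // P p ∧ p ≤ y} : ℝ) ≤
        (Nat.card {p : ℕ // (P p ∧ ¬ p ∣ N) ∧ p ≤ y} : ℝ) + N.primeFactors.card := by
      exact_mod_cast h2
    linarith
  obtain ⟨m, K, y, hyt, hmK, hK, p1, p2, p3⟩ := t5_param y₀ κ θ A ε η δ t
    (fun y => Nat.card {p : ℕ // (P p ∧ ¬ p ∣ N) ∧ p ≤ y}) hκ hθ hA hε0 (by rw [hε]; ring) hη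
    (min_le_left _ _) hδ0 hcount c1 c2 c3 c4 c5 c6 c7 c8
  have hfin : Finite {p : ℕ // (P p ∧ ¬ p ∣ N) ∧ p ≤ y} :=
    (Set.Finite.subset (Set.finite_le_nat y) (fun p hp => hp.2) :
      ({p : ℕ | (P p ∧ ¬ p ∣ N) ∧ p ≤ y}).Finite).to_subtype
  obtain ⟨f⟩ : Nonempty (Fin m × Fin K ↪ {p : ℕ // (P p ∧ ¬ p ∣ N) ∧ p ≤ y}) := by
    have := Fintype.ofFinite {p : ℕ // (P p ∧ ¬ p ∣ N) ∧ p ≤ y}
    refine Function.Embedding.nonempty_of_card_le ?_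
    rw [Fintype.card_prod, Fintype.card_fin, Fintype.card_fin, ← Nat.card_eq_fintype_card]
    exact hmK
  have hexp : Real.exp t = H := Real.exp_log hHpos
  have hyH : y ^ (2 * m) ≤ 2 * H + 1 := by
    have h1 : (y : ℝ) ^ (2 * m) ≤ 2 * H + 1 := by
      refine le_trans p1 ?_
      have h2 : Real.exp (t / 8) ≤ Real.exp t := Real.exp_le_exp.2 (by linarith)
      rw [hexp] at h2
      linarith
    exact_mod_cast h1
  have hmain := h4 ι G κ hκ m K y H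
    (fun x => ((f x : {p : ℕ // (P p ∧ ¬ p ∣ N) ∧ p ≤ y}) : ℕ))
    (Subtype.val_injective.comp f.injective)
    (fun x => ⟨hPp _ (f x).2.1.1, (f x).2.2, hP _ (f x).2.1.1 (f x).2.1.2⟩) hyH b
  have hfin2 : Finite {v : ι → ℤ // v ∈ bx b H ∧
      ∀ x : Fin m × Fin K, (fun i => (v i : ZMod ((f x : {p : ℕ // (P p ∧ ¬ p ∣ N) ∧ p ≤ y}) : ℕ))) ∉
        G ((f x : {p : ℕ // (P p ∧ ¬ p ∣ N) ∧ p ≤ y}) : ℕ)} :=
    Finite.of_injective (fun v => (⟨v.1, v.2.1⟩ : {v // v ∈ bx b H})) (by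
      intro v w hvw
      exact Subtype.ext (congrArg (fun z : {v // v ∈ bx b H} => z.1) hvw))
  have hcard : (Nat.card {v : ι → ℤ // v ∈ bx b H ∧ ∀ p, P p → ¬ p ∣ N → (p : ℝ) ≤ t ^ A →
      (fun i => (v i : ZMod p)) ∉ G p} : ℝ) ≤
      (Nat.card {v : ι → ℤ // v ∈ bx b H ∧
      ∀ x : Fin m × Fin K, (fun i => (v i : ZMod ((f x : {p : ℕ // (P p ∧ ¬ p ∣ N) ∧ p ≤ y}) : ℕ))) ∉
        G ((f x : {p : ℕ // (P p ∧ ¬ p ∣ N) ∧ p ≤ y}) : ℕ)} : ℝ) := by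
    have : Nat.card {v : ι → ℤ // v ∈ bx b H ∧ ∀ p, P p → ¬ p ∣ N → (p : ℝ) ≤ t ^ A →
      (fun i => (v i : ZMod p)) ∉ G p} ≤ Nat.card {v : ι → ℤ // v ∈ bx b H ∧
      ∀ x : Fin m × Fin K, (fun i => (v i : ZMod ((f x : {p : ℕ // (P p ∧ ¬ p ∣ N) ∧ p ≤ y}) : ℕ))) ∉
        G ((f x : {p : ℕ // (P p ∧ ¬ p ∣ N) ∧ p ≤ y}) : ℕ)} := by
      refine Nat.card_le_card_of_injective (fun v => ⟨v.1, v.2.1, fun x =>
        v.2.2 _ (f x).2.1.1 (f x).2.1.2 (le_trans (by exact_mod_cast (f x).2.2) hyt)⟩) ?_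
      intro v w hvw
      have h5 := Subtype.ext_iff.1 hvw
      exact Subtype.ext h5
    exact_mod_cast this
  refine t5_final (Fintype.card ι) m K y _ (2 * (H : ℝ) + 1) κ δ t H hκ hK
    (min_le_right _ _) ht0 hexp.symm (by linarith) c9 p1 p2 p3 ?_
  exact le_trans (mul_le_mul_of_nonneg_right hcard (by positivity)) hmain

end Pool.Agent.Q329.SK
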