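import Pool.Agent.Q329.SK.Loc
import Pool.Agent.Q329.SK.Uni

/-!
Almost all recurrences have no zero for given nonzero initial values (helper329).
-/

set_option autoImplicit false

namespace Pool.Agent.Q329.SK

open Filter Pool.Agent.H684R3.Smo Pool.Agent.H884R2.Sko Pool.Agent.H692R2.USS
open Pool.Agent.TH838.SK (primes_one card_small Cert)

theorem good_cert {d : ℕ} (c a : Fin d → ℤ) (u : ℕ → ℤ) (hu : IsSeq c a u) (p : ℕ)
    (h : GoodA (p := p) (fun i => (a i : ZMod p)) (fun i => ((c (Fin.rev i) : ℤ) : ZMod p)))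
    (n : ℕ) : ¬ (p : ℤ) ∣ u n ∧ (p : ℤ) ∣ u (n + (p - 1)) - u n := by
  have key : ∀ n, ((u n : ℤ) : ZMod p) =
      seq (fun i => ((c (Fin.rev i) : ℤ) : ZMod p)) (fun i => (a i : ZMod p)) n := by
    intro n
    rw [(isSeq_iff c a u).1 hu n]
    have h2 := map_seq (Int.castRingHom (ZMod p)) (fun i => c (Fin.rev i)) a n
    rw [eq_intCast] at h2
    exact h2
  constructor
  · intro hn
    rw [← ZMod.intCast_zmod_eq_zero_iff_dvd, key] at hn
    exact h.1 n hn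
  · rw [← ZMod.intCast_zmod_eq_zero_iff_dvd, Int.cast_sub, key, key, h.2 n, sub_self]

/-- one vector of initial values -/
theorem one (d B : ℕ) (hd : 1 ≤ d) : ∃ A δ : ℝ, 0 < A ∧ 0 < δ ∧ ∃ H₀ : ℕ, ∀ H : ℕ, H₀ ≤ H →
    ∀ a : Fin d → ℤ, (∀ i, a i ≠ 0) → (∏ i, (a i).natAbs) ≤ H ^ B → ∀ b : Fin d → ℤ,
      (Nat.card {c : Fin d → ℤ // c ∈ bx b H ∧
        ¬ ∀ u, IsSeq c a u → Cert (Real.log H ^ A) u} : ℝ) ≤
        (2 * (H : ℝ) + 1) ^ d * (H : ℝ) ^ (-δ) := by
  classical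
  set k : ℕ := 2 * d with hk
  set M : ℕ := 2 * ((2 * k) ^ d * d.factorial) with hM
  have hMpos : 0 < M := by
    rw [hM]
    exact Nat.mul_pos (by norm_num) (Nat.mul_pos (pow_pos (by omega) _) (Nat.factorial_pos _))
  obtain ⟨θ, hθ, hcount⟩ := primes_one k (by omega) (2 * k * d)
  set P : ℕ → Prop := fun p => p.Prime ∧ 2 * k * d ≤ p ∧ k ∣ p - 1 with hP
  set κ : ℝ := 1 / (M : ℕ) with hκ
  have hκ0 : 0 < κ := by positivity
  set A : ℝ := 2 / θ with hA
  have hA0 : 0 < A := by positivity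
  have hAθ : 1 < A * θ := by
    have : A * θ = 2 := by rw [hA]; field_simp
    rw [this]; norm_num
  obtain ⟨δ, hδ, H₀, hmain⟩ := t5v (t4 (t3 t1 t2)) B (Fin d) P κ θ A hκ0 hθ hA0 hAθ
    (fun p hp => hp.1) hcount
  refine ⟨A, δ, hA0, hδ, H₀, fun H hH a ha haN b => ?_⟩
  have hN0 : 0 < ∏ i, (a i).natAbs := Finset.prod_pos fun i _ => Int.natAbs_pos.2 (ha i)
  have h1 := hmain H hH (∏ i, (a i).natAbs) hN0 haN
    (fun p => {x | GoodA (p := p) (fun i => (a i : ZMod p)) (fun i => x (Fin.rev i))}) (by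
      intro p hp hpN
      have hpp : Fact p.Prime := ⟨hp.1⟩
      have hT : k * ((p - 1) / k) = p - 1 := Nat.mul_div_cancel' hp.2.2
      have hap : ∀ i, ((a i : ℤ) : ZMod p) ≠ 0 := by
        intro i hi
        apply hpN
        rw [ZMod.intCast_zmod_eq_zero_iff_dvd, Int.natCast_dvd] at hi
        exact hi.trans (Finset.dvd_prod_of_mem _ (Finset.mem_univ i))
      have h2 := card_goodA p d k ((p - 1) / k) hd hk hT hp.2.1 (fun i => (a i : ZMod p)) hap
      have h3 : Nat.card {x : Fin d → ZMod p | GoodA (p := p) (fun i => (a i : ZMod p))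
          (fun i => x (Fin.rev i))} = ((Finset.univ : Finset (Fin d → ZMod p)).filter
            (fun c => GoodA (fun i => (a i : ZMod p)) c)).card := by
        rw [← Fintype.card_subtype, ← Nat.card_eq_fintype_card]
        apply Nat.card_congr
        refine
          { toFun := fun x => ⟨fun i => x.1 (Fin.rev i), x.2⟩
            invFun := fun x => ⟨fun i => x.1 (Fin.rev i), ?_⟩
            left_inv := fun x => ?_
            right_inv := fun x => ?_ }
        · have := x.2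
          simp only [Set.mem_ofPred_eq, Fin.rev_rev]
          exact this
        · apply Subtype.ext
          funext i
          simp
        · apply Subtype.ext
          funext i
          simp
      rw [h3, hκ, Fintype.card_fin, one_div, inv_mul_le_iff₀ (by positivity)]
      exact_mod_cast h2) b
  rw [Fintype.card_fin] at h1
  refine le_trans ?_ h1
  have hfin := finite_sub b H (fun v : Fin d → ℤ => ∀ p, P p → ¬ p ∣ ∏ i, (a i).natAbs →
    (p : ℝ) ≤ Real.log H ^ A → (fun i => (v i : ZMod p)) ∉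
      {x : Fin d → ZMod p | GoodA (p := p) (fun i => (a i : ZMod p)) (fun i => x (Fin.rev i))})
  have h4 := Nat.card_le_card_of_injective
    (fun v : {c : Fin d → ℤ // c ∈ bx b H ∧ ¬ ∀ u, IsSeq c a u → Cert (Real.log H ^ A) u} =>
      (⟨v.1, v.2.1, fun p hp hpN hpA hG => v.2.2 fun u hu =>
        ⟨p, hp.1, hpA, good_cert v.1 a u hu p hG⟩⟩ :
        {v : Fin d → ℤ // v ∈ bx b H ∧ ∀ p, P p → ¬ p ∣ ∏ i, (a i).natAbs →
          (p : ℝ) ≤ Real.log H ^ A → (fun i => (v i : ZMod p)) ∉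
            {x : Fin d → ZMod p | GoodA (p := p) (fun i => (a i : ZMod p))
              (fun i => x (Fin.rev i))}}))
    (fun x y hxy => Subtype.ext (congrArg (fun z => z.1) hxy))
  exact_mod_cast h4

/-- all small vectors of initial values at the same time -/
theorem all (d : ℕ) (hd : 1 ≤ d) : ∃ A δ : ℝ, 0 < A ∧ 0 < δ ∧ ∃ H₀ : ℕ, ∀ H : ℕ, H₀ ≤ H →
    ∀ b : Fin d → ℤ,
      (Nat.card {c : Fin d → ℤ // c ∈ bx b H ∧
        ¬ ∀ a : Fin d → ℤ, (∀ i, a i ≠ 0) → (∀ i, |(a i : ℝ)| ≤ (H : ℝ) ^ δ) →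
          ∀ u, IsSeq c a u → Cert (Real.log H ^ A) u} : ℝ) ≤
        (2 * (H : ℝ) + 1) ^ d * (H : ℝ) ^ (-δ) := by
  classical
  obtain ⟨A, δ₀, hA0, hδ₀, H₁, hmain⟩ := one d 1 hd
  set δ : ℝ := min (δ₀ / (2 * (d + 1))) (1 / d) with hδ
  have hdR : (1 : ℝ) ≤ d := by exact_mod_cast hd
  have hδ0 : 0 < δ := lt_min (by positivity) (by positivity)
  have hδ1 : δ * d ≤ 1 := by
    calc δ * d ≤ 1 / d * d := by
          apply mul_le_mul_of_nonneg_right (min_le_right _ _) (by positivity)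
      _ = 1 := by field_simp
  have hδ2 : δ * (d + 1) ≤ δ₀ / 2 := by
    calc δ * (d + 1) ≤ δ₀ / (2 * (d + 1)) * (d + 1) := by
          apply mul_le_mul_of_nonneg_right (min_le_left _ _) (by positivity)
      _ = δ₀ / 2 := by field_simp
  have hev : ∀ᶠ H : ℕ in Filter.atTop, (3 : ℝ) ^ d ≤ (H : ℝ) ^ (δ₀ / 2) := by
    have : Filter.Tendsto (fun y : ℕ => (y : ℝ) ^ (δ₀ / 2)) Filter.atTop Filter.atTop :=
      (tendsto_rpow_atTop (by positivity)).comp tendsto_natCast_atTop_atTop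
    exact this.eventually_ge_atTop _
  obtain ⟨H₂, hH₂⟩ := Filter.eventually_atTop.1 hev
  refine ⟨A, δ, hA0, hδ0, max 1 (max H₁ H₂), fun H hH b => ?_⟩
  have hH1 : 1 ≤ H := (le_max_left _ _).trans hH
  have hHH₁ : H₁ ≤ H := (le_max_left _ _).trans ((le_max_right _ _).trans hH)
  have hHH₂ : H₂ ≤ H := (le_max_right _ _).trans ((le_max_right _ _).trans hH)
  have hHr : (1 : ℝ) ≤ H := by exact_mod_cast hH1
  have hHr0 : (0 : ℝ) < H := by linarith
  set X : ℝ := (H : ℝ) ^ δ with hX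
  have hX1 : 1 ≤ X := Real.one_le_rpow hHr hδ0.le
  set W : Finset (Fin d → ℤ) := (Fintype.piFinset fun _ : Fin d => Finset.Icc (-⌊X⌋) ⌊X⌋).filter
    (fun a => (∀ i, a i ≠ 0) ∧ ∀ i, |(a i : ℝ)| ≤ X) with hW
  let Bd : (Fin d → ℤ) → Finset (Fin d → ℤ) := fun a => (bx b H).filter
    (fun c => ¬ ∀ u, IsSeq c a u → Cert (Real.log H ^ A) u)
  have hB : ∀ a ∈ W, ((Bd a).card : ℝ) ≤ (2 * (H : ℝ) + 1) ^ d * (H : ℝ) ^ (-δ₀) := by
    intro a ha
    rw [hW, Finset.mem_filter] at ha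
    have hprod : (∏ i, (a i).natAbs) ≤ H ^ 1 := by
      have h1 : ((∏ i, (a i).natAbs : ℕ) : ℝ) ≤ (H : ℝ) := by
        push_cast
        calc ∏ i, (((a i).natAbs : ℕ) : ℝ) ≤ ∏ _i : Fin d, X := by
              apply Finset.prod_le_prod (fun i _ => by positivity)
              intro i _
              rw [Nat.cast_natAbs, Int.cast_abs]
              exact ha.2.2 i
          _ = X ^ d := by simp
          _ = (H : ℝ) ^ (δ * d) := by
              rw [hX, ← Real.rpow_natCast, ← Real.rpow_mul hHr0.le]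
          _ ≤ (H : ℝ) ^ (1 : ℝ) := Real.rpow_le_rpow_of_exponent_le hHr hδ1
          _ = H := Real.rpow_one _
      rw [pow_one]
      exact_mod_cast h1
    have h1 := hmain H hHH₁ a ha.2.1 hprod b
    have h2 : (Bd a).card = Nat.card {c : Fin d → ℤ // c ∈ bx b H ∧
        ¬ ∀ u, IsSeq c a u → Cert (Real.log H ^ A) u} := by
      rw [← Nat.card_eq_finsetCard]
      apply Nat.card_congr
      apply Equiv.subtypeEquivRight
      intro v
      simp only [Bd, Finset.mem_filter]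
    rw [h2]
    exact h1
  have hfin : Nat.card {c : Fin d → ℤ // c ∈ bx b H ∧
      ¬ ∀ a : Fin d → ℤ, (∀ i, a i ≠ 0) → (∀ i, |(a i : ℝ)| ≤ X) →
        ∀ u, IsSeq c a u → Cert (Real.log H ^ A) u} ≤ (W.biUnion Bd).card := by
    rw [← Nat.card_eq_finsetCard]
    refine Nat.card_le_card_of_injective
      (fun v : {c : Fin d → ℤ // c ∈ bx b H ∧
      ¬ ∀ a : Fin d → ℤ, (∀ i, a i ≠ 0) → (∀ i, |(a i : ℝ)| ≤ X) →
        ∀ u, IsSeq c a u → Cert (Real.log H ^ A) u} =>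
        (⟨v.1, ?_⟩ : {v // v ∈ W.biUnion Bd}))
      (fun v v' h => Subtype.ext (congrArg (fun z => z.1) h))
    obtain ⟨h1, h2⟩ := v.2
    push Not at h2
    obtain ⟨a, ha0, haX, u, hu, hc⟩ := h2
    rw [Finset.mem_biUnion]
    refine ⟨a, ?_, ?_⟩
    · rw [hW, Finset.mem_filter]
      refine ⟨?_, ha0, haX⟩
      rw [Fintype.mem_piFinset]
      intro i
      rw [Finset.mem_Icc]
      have h1 := abs_le.1 (haX i)
      constructor
      · have h2 : -(a i) ≤ ⌊X⌋ := by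
          rw [Int.le_floor]
          push_cast
          linarith [h1.1]
        linarith
      · rw [Int.le_floor]
        exact h1.2
    · simp only [Bd, Finset.mem_filter]
      exact ⟨h1, fun h => hc (h u hu)⟩
  have hWc : (W.card : ℝ) ≤ (3 * X) ^ d := by
    have h1 := card_small (J := Fin d) X hX1
    rw [Fintype.card_fin] at h1
    refine le_trans ?_ h1
    exact Nat.cast_le.2 (Finset.card_filter_le _ _)
  have hsum : ((W.biUnion Bd).card : ℝ) ≤
      W.card * ((2 * (H : ℝ) + 1) ^ d * (H : ℝ) ^ (-δ₀)) := by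
    calc ((W.biUnion Bd).card : ℝ) ≤ ((∑ w ∈ W, (Bd w).card : ℕ) : ℝ) := by
          exact_mod_cast Finset.card_biUnion_le
      _ = ∑ w ∈ W, ((Bd w).card : ℝ) := by push_cast; rfl
      _ ≤ ∑ _w ∈ W, ((2 * (H : ℝ) + 1) ^ d * (H : ℝ) ^ (-δ₀)) :=
          Finset.sum_le_sum hB
      _ = _ := by rw [Finset.sum_const, nsmul_eq_mul]
  have hS : (0 : ℝ) ≤ (2 * (H : ℝ) + 1) ^ d := by positivity
  have hpow : (3 * X) ^ d * (H : ℝ) ^ (-δ₀) ≤ (H : ℝ) ^ (-δ) := by
    have h1 := hH₂ H hHH₂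
    have h2 : X ^ d = (H : ℝ) ^ (δ * d) := by
      rw [hX, ← Real.rpow_natCast, ← Real.rpow_mul hHr0.le]
    rw [mul_pow, h2]
    calc (3 : ℝ) ^ d * (H : ℝ) ^ (δ * d) * (H : ℝ) ^ (-δ₀) ≤
          (H : ℝ) ^ (δ₀ / 2) * (H : ℝ) ^ (δ * d) * (H : ℝ) ^ (-δ₀) := by gcongr
      _ = (H : ℝ) ^ (δ₀ / 2 + δ * d + -δ₀) := by
          rw [Real.rpow_add hHr0, Real.rpow_add hHr0]
      _ ≤ (H : ℝ) ^ (-δ) := by
          apply Real.rpow_le_rpow_of_exponent_le hHr
          nlinarith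
  calc (Nat.card {c : Fin d → ℤ // c ∈ bx b H ∧
        ¬ ∀ a : Fin d → ℤ, (∀ i, a i ≠ 0) → (∀ i, |(a i : ℝ)| ≤ X) →
          ∀ u, IsSeq c a u → Cert (Real.log H ^ A) u} : ℝ) ≤ ((W.biUnion Bd).card : ℝ) := by
        exact_mod_cast hfin
    _ ≤ W.card * ((2 * (H : ℝ) + 1) ^ d * (H : ℝ) ^ (-δ₀)) := hsum
    _ ≤ (3 * X) ^ d * ((2 * (H : ℝ) + 1) ^ d * (H : ℝ) ^ (-δ₀)) := by
        gcongr
    _ = (2 * (H : ℝ) + 1) ^ d * ((3 * X) ^ d * (H : ℝ) ^ (-δ₀)) := by
        ring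
    _ ≤ _ := mul_le_mul_of_nonneg_left hpow hS

end Pool.Agent.Q329.SK
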